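import Pool.Agent.Helper90.NS.Pt
import Pool.Agent.Helper57.NS.Defs

/-!
# NS: block E2, the tail
-/

set_option autoImplicit false
open MeasureTheory Set Filter Topology
open Pool.Agent.Helper57.Zeta Pool.Agent.Helper57.LH Pool.Agent.Helper57.ED
open Pool.Agent.Helper54.LG (qk qk_cont qk_zero_nonneg qk_neg_right za zb)
open Pool.Agent.Helper93.UG (zc sp)
open Pool.Agent.Helper93.NR (KK KK_abs KK_le KK_mass KK_cont KK_nonneg)
open Pool.Agent.Helper57.NS

namespace Pool.Agent.Helper90.NS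

/-- The deviations of the numbers of the zeros, thick. -/
def DevThick : Prop := ∀ η B : ℝ, 0 < η → η < 1 → 0 < B → ∃ C T₀ : ℝ, 1 ≤ C ∧ ∀ T L : ℝ, T₀ ≤ T → C ≤ L → L ≤ Real.log T →
  ∃ E : Set ℝ, volume E ≤ ENNReal.ofReal (C * L ^ (-B) * T) ∧ ∀ t ∈ Icc (T / 2) (3 * T), t ∉ E → ∀ u : ℝ, |u - t| ≤ sp T →
    ∀ x : ℝ, L ≤ x → x ≤ Real.log T ^ 10 →
      |(zc (Ico u (u + x * sp T)) : ℝ) - x| ≤ x ^ η + x * Real.log T ^ (-(1 - η)) ∧
      |(zc (Ico (u - x * sp T) u) : ℝ) - x| ≤ x ^ η + x * Real.log T ^ (-(1 - η))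

lemma Ak_eq {k L : ℝ} (hk : 0 < k) (hL : 0 ≤ L) :
    Mk k L - Ak k L = wk k L * ∑ j ∈ Sc k L, 2 * ∫ x in Ioi L, KK ((1 + k) ^ j) x := by
  have h1 : ∀ j : ℕ, (0:ℝ) < (1 + k) ^ j := fun j => by positivity
  have h2 : ∀ M : ℝ, 0 < M → M - ∫ x in (-L)..L, KK M x = 2 * ∫ x in Ioi L, KK M x := by
    intro M hM
    obtain ⟨m1, m2, -⟩ := KK_mass hM
    have hi : ∀ a b : ℝ, IntervalIntegrable (KK M) volume a b := fun a b => (KK_cont M).intervalIntegrable a b
    have e1 : ∫ x in (-L)..L, KK M x = 2 * ∫ x in (0:ℝ)..L, KK M x := by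
      rw [← intervalIntegral.integral_add_adjacent_intervals (hi (-L) 0) (hi 0 L)]
      have e2 : ∫ x in (-L)..0, KK M x = ∫ x in (0:ℝ)..L, KK M x := by
        have e3 := intervalIntegral.integral_comp_neg (a := 0) (b := L) (fun x => KK M x)
        rw [neg_zero] at e3
        rw [← e3]
        refine intervalIntegral.integral_congr fun x _ => ?_
        change KK M (-x) = KK M x
        rw [← KK_abs M (-x), abs_neg, KK_abs]
      rw [e2]
      ring
    have e4 := intervalIntegral.integral_interval_add_Ioi m2 (m2.mono_set (Ioi_subset_Ioi hL))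
    linarith
  unfold Mk Ak ph
  have e5 : ∫ x in (-L)..L, wk k L * ∑ j ∈ Sc k L, qk 0 (2 * Real.pi * x / (1 + k) ^ j) =
      wk k L * ∑ j ∈ Sc k L, ∫ x in (-L)..L, KK ((1 + k) ^ j) x := by
    rw [intervalIntegral.integral_const_mul, intervalIntegral.integral_finsetSum]
    · rfl
    · intro j _
      exact (KK_cont ((1 + k) ^ j)).intervalIntegrable _ _
  rw [e5, ← mul_sub, ← Finset.sum_sub_distrib]
  congr 1
  exact Finset.sum_congr rfl fun j _ => h2 _ (h1 j)

open Classical in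
lemma Ok_eq {k T L t : ℝ} (hk : 0 < k) (hT : 1 < T) :
    Ok k T L t = wk k L * ∑ j ∈ Sc k L,
      ∑' ρ : ZS, mx ρ * (if |(ρ : ℂ).im - t| ≤ L * sp T then 0 else KK ((1 + k) ^ j) (((ρ : ℂ).im - t) / sp T)) := by
  have h1 : ∀ j : ℕ, (0:ℝ) < (1 + k) ^ j := fun j => by positivity
  unfold Ok
  rw [← Summable.tsum_finsetSum, ← tsum_mul_left]
  · refine tsum_congr fun ρ => ?_
    split_ifs
    · simp
    · unfold ph Pool.Agent.Helper93.NR.KK
      rw [Finset.mul_sum, Finset.mul_sum, Finset.mul_sum]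
      refine Finset.sum_congr rfl fun j _ => ?_
      ring
  · intro j _
    refine Summable.of_nonneg_of_le (fun ρ => ?_) (fun ρ => ?_) (summ (u := t) hT (h1 j))
    · refine mul_nonneg (mx_nonneg _) ?_
      split_ifs
      · exact le_rfl
      · exact KK_nonneg _ _
    · refine mul_le_mul_of_nonneg_left ?_ (mx_nonneg _)
      split_ifs
      · exact KK_nonneg _ _
      · exact le_rfl

/-- E2: the tail, thick. -/
theorem out_thick_of (hd : DevThick) {k : ℝ} (hk : 0 < k) (hk8 : k ≤ 1 / 8) : ∃ c C T₀ : ℝ, 0 < c ∧ 1 ≤ C ∧ ∀ T L : ℝ, T₀ ≤ T →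
    C ≤ L → L ≤ Real.log T → Thick T (C * L ^ (-4 : ℝ)) (C * L ^ (-c)) (fun u => Ok k T L u - (Mk k L - Ak k L)) := by
  classical
  obtain ⟨C₁, T₁, hC₁, H1⟩ := hd k 4 hk (by linarith) (by norm_num)
  obtain ⟨C₂, hC₂, H2⟩ := pt_tail
  refine ⟨k, C₁ + 2 * (70 + 40 * C₂), max T₁ (Real.exp 10), hk, by linarith, fun T L hT hCL hLT => ?_⟩
  have hT1 : T₁ ≤ T := (le_max_left _ _).trans hT
  have hT2 : Real.exp 10 ≤ T := (le_max_right _ _).trans hT
  have hT0 : 0 < T := (Real.exp_pos _).trans_le hT2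
  have hl10 : 10 ≤ Real.log T := by
    rw [Real.le_log_iff_exp_le hT0]
    exact hT2
  set l : ℝ := Real.log T with hl
  have hT3 : 3 ≤ T := by
    have := Real.add_one_le_exp (10:ℝ)
    linarith
  have hL1 : 1 ≤ L := by linarith
  have hL0 : 0 < L := by linarith
  have hpi := Real.pi_gt_three
  have hpi4 := Real.pi_lt_four
  have hs : sp T = 2 * Real.pi / l := rfl
  have hs0 : 0 < sp T := by
    rw [hs]
    positivity
  obtain ⟨E, hE, H⟩ := H1 T L hT1 (by linarith) hLT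
  refine ⟨E, hE.trans (ENNReal.ofReal_le_ofReal ?_), fun t ht u hu hv => ?_⟩
  · refine mul_le_mul_of_nonneg_right (mul_le_mul_of_nonneg_right (by linarith) (by positivity)) hT0.le
  by_contra hnE
  refine absurd hv (not_lt.2 ?_)
  -- the point
  set U : ℝ := l ^ 9 with hU
  have hl0 : 0 < l := by linarith
  have hl1 : 1 ≤ l := by linarith
  have hLU : L ≤ U := by
    calc L ≤ l := hLT
      _ = l ^ 1 := (pow_one l).symm
      _ ≤ l ^ 9 := pow_le_pow_right₀ hl1 (by norm_num)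
  have hU10 : U + 1 ≤ l ^ 10 := by
    have h1 : (1:ℝ) ≤ l ^ 9 := one_le_pow₀ hl1
    have h2 : l ^ 10 = l ^ 9 * l := pow_succ l 9
    rw [h2, hU]
    nlinarith
  have hUs : U * sp T = 2 * Real.pi * l ^ 8 := by
    rw [hs, hU]
    field_simp
  have hU1 : 1 ≤ U * sp T := by
    rw [hUs]
    have h1 : (1:ℝ) ≤ l ^ 8 := one_le_pow₀ hl1
    nlinarith
  have hsq : l ^ 4 ≤ √(U * sp T) := by
    apply Real.le_sqrt_of_sq_le
    rw [hUs, ← pow_mul]
    have h1 : (0:ℝ) < l ^ 8 := by positivity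
    norm_num
    nlinarith
  have hs1 : sp T ≤ 1 := by
    rw [hs, div_le_one hl0]
    linarith
  have hut : |u| ≤ 4 * T := by
    have h1 := abs_sub_abs_le_abs_sub u t
    have h2 : |t| ≤ 3 * T := by
      rw [abs_of_nonneg (by linarith [ht.1])]
      exact ht.2
    linarith
  have hpt : ∀ M : ℝ, 1 ≤ M → M ≤ L ^ (1 - k) →
      |∑' ρ : ZS, mx ρ * (if |(ρ : ℂ).im - u| ≤ L * sp T then 0 else KK M (((ρ : ℂ).im - u) / sp T)) -
        2 * ∫ x in Ioi L, KK M x| ≤ (70 + 40 * C₂) * L ^ (-k) := by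
    intro M hM1 hML
    have hM0 : 0 < M := by linarith
    have h1 := H2 T u L U M 1 (l ^ (-(1 - k))) k hT3 hut hL1 hLU hU1 hM0 zero_le_one (by positivity) hk.le (by linarith)
      (fun x hx => by
        have := (H t ht hnE u hu x hx.1 (hx.2.trans hU10)).1
        rw [one_mul, mul_comm (l ^ (-(1 - k))) x]
        exact this)
      (fun x hx => by
        have := (H t ht hnE u hu x hx.1 (hx.2.trans hU10)).2
        rw [one_mul, mul_comm (l ^ (-(1 - k))) x]
        exact this)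
    refine h1.trans ?_
    -- sizes
    have hMsq : M ^ 2 ≤ L ^ (2 - 2 * k) := by
      calc M ^ 2 ≤ (L ^ (1 - k)) ^ 2 := pow_le_pow_left₀ hM0.le hML 2
        _ = L ^ (2 - 2 * k) := by
          rw [← Real.rpow_natCast, ← Real.rpow_mul hL0.le]
          congr 1
          push_cast
          ring
    have g1 : M ^ 2 * L ^ (k - 2) ≤ L ^ (-k) := by
      calc M ^ 2 * L ^ (k - 2) ≤ L ^ (2 - 2 * k) * L ^ (k - 2) := mul_le_mul_of_nonneg_right hMsq (by positivity)
        _ = L ^ (-k) := by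
          rw [← Real.rpow_add hL0]
          congr 1
          ring
    have g2 : l ^ (-(1 - k)) * M ^ 2 * L ^ ((1:ℝ) - 2) ≤ L ^ (-k) := by
      have g3 : l ^ (-(1 - k)) ≤ L ^ (-(1 - k)) := Real.rpow_le_rpow_of_nonpos hL0 hLT (by linarith)
      calc l ^ (-(1 - k)) * M ^ 2 * L ^ ((1:ℝ) - 2) ≤ L ^ (-(1 - k)) * L ^ (2 - 2 * k) * L ^ ((1:ℝ) - 2) := by
            refine mul_le_mul_of_nonneg_right (mul_le_mul g3 hMsq (by positivity) (by positivity)) (by positivity)
        _ = L ^ (-k) := by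
          rw [← Real.rpow_add hL0, ← Real.rpow_add hL0]
          congr 1
          ring
    have g4 : M ^ 2 / l ^ 4 ≤ L ^ (-k) := by
      have g5 : L ^ (2 - 2 * k) ≤ l ^ 4 * L ^ (-k) := by
        have g6 : L ^ (2 - 2 * k) = L ^ (2 - k) * L ^ (-k) := by
          rw [← Real.rpow_add hL0]
          congr 1
          ring
        rw [g6]
        refine mul_le_mul_of_nonneg_right ?_ (by positivity)
        calc L ^ (2 - k) ≤ L ^ (4:ℝ) := Real.rpow_le_rpow_of_exponent_le hL1 (by linarith)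
          _ ≤ l ^ (4:ℝ) := Real.rpow_le_rpow hL0.le hLT (by norm_num)
          _ = l ^ 4 := by norm_cast
      rw [div_le_iff₀ (by positivity)]
      linarith
    have g7 : C₂ * M ^ 2 * sp T ^ 2 * l / √(U * sp T) ≤ 40 * C₂ * L ^ (-k) := by
      have g8 : sp T ^ 2 * l ≤ 40 := by
        rw [hs, div_pow]
        have e : (2 * Real.pi) ^ 2 / l ^ 2 * l = 4 * Real.pi ^ 2 / l := by
          field_simp
          ring
        rw [e, div_le_iff₀ hl0]
        nlinarith
      have g9 : 0 < sp T ^ 2 * l := by positivity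
      calc C₂ * M ^ 2 * sp T ^ 2 * l / √(U * sp T) ≤ C₂ * M ^ 2 * sp T ^ 2 * l / l ^ 4 :=
            div_le_div_of_nonneg_left (by positivity) (by positivity) hsq
        _ = C₂ * (sp T ^ 2 * l) * (M ^ 2 / l ^ 4) := by ring
        _ ≤ C₂ * 40 * L ^ (-k) := by
          refine mul_le_mul (mul_le_mul_of_nonneg_left g8 hC₂.le) g4 (by positivity) (by positivity)
        _ = _ := by ring
    have g10 : M ^ 2 / U ≤ L ^ (-k) := by
      refine le_trans ?_ g4
      rw [hU]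
      exact div_le_div_of_nonneg_left (by positivity) (by positivity) (pow_le_pow_right₀ hl1 (by norm_num))
    have hp : 0 < L ^ (-k) := by positivity
    have e1 : 2 * (2 * (1 + 4 * 1) * M ^ 2 * L ^ (k - 2) + 2 * (4 * l ^ (-(1 - k))) * M ^ 2 * L ^ ((1:ℝ) - 2)) =
        20 * (M ^ 2 * L ^ (k - 2)) + 16 * (l ^ (-(1 - k)) * M ^ 2 * L ^ ((1:ℝ) - 2)) := by ring
    rw [e1]
    have t1 := mul_le_mul_of_nonneg_left g1 (by norm_num : (0:ℝ) ≤ 20)
    have t2 := mul_le_mul_of_nonneg_left g2 (by norm_num : (0:ℝ) ≤ 16)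
    have t3 := mul_le_mul_of_nonneg_left g10 (by norm_num : (0:ℝ) ≤ 2)
    refine (add_le_add (add_le_add (add_le_add t1 t2) g7) t3).trans ?_
    have e2 : (70 + 40 * C₂) * L ^ (-k) =
        (20 * L ^ (-k) + 16 * L ^ (-k) + 40 * C₂ * L ^ (-k) + 2 * L ^ (-k)) + 32 * L ^ (-k) := by ring
    rw [e2]
    exact le_add_of_nonneg_right (by positivity)
  -- the mean over the scales
  simp only
  rw [Ok_eq hk (by linarith), Ak_eq hk hL0.le, ← mul_sub, ← Finset.sum_sub_distrib, abs_mul]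
  have hw0 : 0 ≤ wk k L := by
    unfold wk
    positivity
  have hsc : ∀ j ∈ Sc k L, (1:ℝ) ≤ (1 + k) ^ j ∧ (1 + k) ^ j ≤ L ^ (1 - k) := by
    intro j hj
    rw [Sc, Finset.mem_filter] at hj
    exact ⟨one_le_pow₀ (by linarith), hj.2.2⟩
  have h3 : |∑ j ∈ Sc k L, (∑' ρ : ZS, mx ρ * (if |(ρ : ℂ).im - u| ≤ L * sp T then 0 else
      KK ((1 + k) ^ j) (((ρ : ℂ).im - u) / sp T)) - 2 * ∫ x in Ioi L, KK ((1 + k) ^ j) x)| ≤
      (Sc k L).card * ((70 + 40 * C₂) * L ^ (-k)) := by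
    refine (Finset.abs_sum_le_sum_abs _ _).trans ?_
    refine (Finset.sum_le_card_nsmul _ _ _ fun j hj => hpt _ (hsc j hj).1 (hsc j hj).2).trans ?_
    rw [nsmul_eq_mul]
  rw [abs_of_nonneg hw0]
  have h4 : wk k L * (Sc k L).card ≤ 3 / 2 := by
    unfold wk
    rcases Nat.eq_zero_or_pos (Sc k L).card with h | h
    · rw [h]
      norm_num
    · have h5 : (0:ℝ) < (Sc k L).card := by exact_mod_cast h
      rw [div_mul_eq_mul_div, div_le_div_iff₀ (by positivity) (by norm_num)]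
      linarith
  have hp : 0 < L ^ (-k) := by positivity
  calc wk k L * |∑ j ∈ Sc k L, (∑' ρ : ZS, mx ρ * (if |(ρ : ℂ).im - u| ≤ L * sp T then 0 else
      KK ((1 + k) ^ j) (((ρ : ℂ).im - u) / sp T)) - 2 * ∫ x in Ioi L, KK ((1 + k) ^ j) x)|
      ≤ wk k L * ((Sc k L).card * ((70 + 40 * C₂) * L ^ (-k))) := mul_le_mul_of_nonneg_left h3 hw0
    _ = wk k L * (Sc k L).card * ((70 + 40 * C₂) * L ^ (-k)) := by ring
    _ ≤ 3 / 2 * ((70 + 40 * C₂) * L ^ (-k)) := mul_le_mul_of_nonneg_right h4 (by positivity)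
    _ ≤ (C₁ + 2 * (70 + 40 * C₂)) * L ^ (-k) := by
      have h6 : 0 ≤ (70 + 40 * C₂) * L ^ (-k) := by positivity
      have h7 : 0 ≤ C₁ * L ^ (-k) := by positivity
      linarith

end Pool.Agent.Helper90.NS
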