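import Pool.Agent.Helper24.UG.Win

/-!
# NS: the far zeros
-/

set_option autoImplicit false
open MeasureTheory Set Filter Topology
open Pool.Agent.Helper57.Zeta Pool.Agent.Helper57.LH Pool.Agent.Helper57.ED
open Pool.Agent.Helper93.UG (zc sp)

namespace Pool.Agent.Helper90.NS

/-- The zeros at distance between `k` and `k + 1`. -/
private lemma shell : ∃ C : ℝ, 0 < C ∧ ∀ (u : ℝ) (k : ℕ) (Z : Finset ZS),
    (∀ ρ ∈ Z, (k : ℝ) ≤ |(ρ : ℂ).im - u| ∧ |(ρ : ℂ).im - u| ≤ k + 1) → ∑ ρ ∈ Z, mx ρ ≤ C * Real.log (4 + |u| + k) := by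
  classical
  obtain ⟨C, hC, H⟩ := Pool.Agent.Helper24.UG.triv
  refine ⟨2 * C, by positivity, fun u k Z hZ => ?_⟩
  have h1 : ∑ ρ ∈ Z, mx ρ = ∑ ρ ∈ Z.filter (fun ρ : ZS => u ≤ (ρ : ℂ).im), mx ρ + ∑ ρ ∈ Z.filter (fun ρ : ZS => ¬ u ≤ (ρ : ℂ).im), mx ρ :=
    (Finset.sum_filter_add_sum_filter_not Z _ _).symm
  have hk : (0:ℝ) ≤ k := by positivity
  have hmono : ∀ v : ℝ, |v| ≤ |u| + k → C * Real.log (4 + |v|) ≤ C * Real.log (4 + |u| + k) := by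
    intro v hv
    refine mul_le_mul_of_nonneg_left (Real.log_le_log (by positivity) ?_) hC.le
    linarith
  have h2 : ∑ ρ ∈ Z.filter (fun ρ : ZS => u ≤ (ρ : ℂ).im), mx ρ ≤ C * Real.log (4 + |u| + k) := by
    refine (H (u + k) _ ?_).trans (hmono _ ?_)
    · intro ρ hρ
      rw [Finset.mem_filter] at hρ
      obtain ⟨a, b⟩ := hZ ρ hρ.1
      rw [abs_of_nonneg (by linarith [hρ.2])] at a b
      rw [abs_le]
      constructor <;> linarith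
    · refine (abs_add_le _ _).trans ?_
      rw [abs_of_nonneg hk]
  have h3 : ∑ ρ ∈ Z.filter (fun ρ : ZS => ¬ u ≤ (ρ : ℂ).im), mx ρ ≤ C * Real.log (4 + |u| + k) := by
    refine (H (u - k) _ ?_).trans (hmono _ ?_)
    · intro ρ hρ
      rw [Finset.mem_filter, not_le] at hρ
      obtain ⟨a, b⟩ := hZ ρ hρ.1
      rw [abs_of_neg (by linarith [hρ.2])] at a b
      rw [abs_le]
      constructor <;> linarith
    · refine (abs_sub _ _).trans ?_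
      rw [abs_of_nonneg hk]
  rw [h1]
  linarith

/-- The far zeros. -/
theorem far_sum : ∃ C : ℝ, 0 < C ∧ ∀ (T u D : ℝ) (Z : Finset ZS), 3 ≤ T → |u| ≤ 4 * T → 1 ≤ D →
    (∀ ρ ∈ Z, D < |(ρ : ℂ).im - u|) → ∑ ρ ∈ Z, mx ρ / ((ρ : ℂ).im - u) ^ 2 ≤ C * Real.log T / √D := by
  classical
  obtain ⟨C, hC, H⟩ := shell
  have hS : Summable fun k : ℕ => (k : ℝ) ^ (-(5 / 4) : ℝ) := Real.summable_nat_rpow.2 (by norm_num)
  set S : ℝ := ∑' k : ℕ, (k : ℝ) ^ (-(5 / 4) : ℝ) with hSd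
  have hS0 : 0 ≤ S := tsum_nonneg fun k => by positivity
  refine ⟨22 * C * (S + 1), by positivity, fun T u D Z hT hu hD hZ => ?_⟩
  have hl : 1 ≤ Real.log T := by
    rw [Real.le_log_iff_exp_le (by linarith)]
    linarith [Real.exp_one_lt_d9]
  have hD0 : 0 < D := by linarith
  have hsD : 0 < √D := Real.sqrt_pos.2 hD0
  set κ : ZS → ℕ := fun ρ => ⌊|(ρ : ℂ).im - u|⌋₊ with hκ
  have e : ∑ ρ ∈ Z, mx ρ / ((ρ : ℂ).im - u) ^ 2 = ∑ k ∈ Z.image κ, ∑ ρ ∈ Z.filter (fun ρ : ZS => κ ρ = k), mx ρ / ((ρ : ℂ).im - u) ^ 2 :=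
    (Finset.sum_fiberwise_of_maps_to (fun ρ hρ => Finset.mem_image_of_mem κ hρ) _).symm
  rw [e]
  have hterm : ∀ k ∈ Z.image κ, ∑ ρ ∈ Z.filter (fun ρ : ZS => κ ρ = k), mx ρ / ((ρ : ℂ).im - u) ^ 2 ≤
      22 * C * Real.log T / √D * (k : ℝ) ^ (-(5 / 4) : ℝ) := by
    intro k hk
    obtain ⟨ρ0, hρ0, hk0⟩ := Finset.mem_image.1 hk
    have hd0 := hZ ρ0 hρ0
    have hk1 : 1 ≤ k := by
      rw [← hk0]
      exact Nat.le_floor (by push_cast; linarith)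
    have hkr : (1:ℝ) ≤ k := by exact_mod_cast hk1
    have hk00 : (0:ℝ) < k := by linarith
    have hDk : D ≤ 2 * k := by
      have h1 : |(ρ0 : ℂ).im - u| < (κ ρ0 : ℝ) + 1 := Nat.lt_floor_add_one _
      rw [hk0] at h1
      linarith
    have hfib : ∀ ρ ∈ Z.filter (fun ρ : ZS => κ ρ = k), (k : ℝ) ≤ |(ρ : ℂ).im - u| ∧ |(ρ : ℂ).im - u| ≤ k + 1 := by
      intro ρ hρ
      rw [Finset.mem_filter] at hρ
      rw [← hρ.2]
      exact ⟨Nat.floor_le (abs_nonneg _), (Nat.lt_floor_add_one _).le⟩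
    have h1 : ∑ ρ ∈ Z.filter (fun ρ : ZS => κ ρ = k), mx ρ / ((ρ : ℂ).im - u) ^ 2 ≤
        (∑ ρ ∈ Z.filter (fun ρ : ZS => κ ρ = k), mx ρ) / (k : ℝ) ^ 2 := by
      rw [Finset.sum_div]
      refine Finset.sum_le_sum fun ρ hρ => ?_
      have h2 := (hfib ρ hρ).1
      have h3 : (k : ℝ) ^ 2 ≤ ((ρ : ℂ).im - u) ^ 2 := by
        rw [← sq_abs ((ρ : ℂ).im - u)]
        exact pow_le_pow_left₀ hk00.le h2 2
      exact div_le_div_of_nonneg_left (mx_nonneg _) (by positivity) h3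
    have h2 := H u k _ hfib
    have h3 : Real.log (4 + |u| + k) ≤ 11 * Real.log T * (k : ℝ) ^ (1 / 4 : ℝ) := by
      have hk4 : (1:ℝ) ≤ (k : ℝ) ^ (1 / 4 : ℝ) := Real.one_le_rpow hkr (by norm_num)
      have h4 : 4 + |u| + k ≤ T ^ 3 * (1 + k) := by
        have h5 : 4 + 4 * T ≤ T ^ 3 := by nlinarith [mul_nonneg (show (0:ℝ) ≤ T - 3 by linarith) (show (0:ℝ) ≤ T by linarith)]
        have h6 : (1:ℝ) ≤ T ^ 3 := by linarith
        nlinarith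
      have h5 : Real.log (4 + |u| + k) ≤ Real.log (T ^ 3 * (1 + k)) := Real.log_le_log (by positivity) h4
      rw [Real.log_mul (by positivity) (by positivity), Real.log_pow] at h5
      have h6 : Real.log (1 + k) ≤ (1 + (k:ℝ)) ^ (1 / 4 : ℝ) / (1 / 4) := Real.log_le_rpow_div (by positivity) (by norm_num)
      have h7 : (1 + (k:ℝ)) ^ (1 / 4 : ℝ) ≤ 2 * (k : ℝ) ^ (1 / 4 : ℝ) := by
        calc (1 + (k:ℝ)) ^ (1 / 4 : ℝ) ≤ (2 * (k:ℝ)) ^ (1 / 4 : ℝ) := Real.rpow_le_rpow (by positivity) (by linarith) (by norm_num)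
          _ = (2:ℝ) ^ (1 / 4 : ℝ) * (k : ℝ) ^ (1 / 4 : ℝ) := Real.mul_rpow (by norm_num) hk00.le
          _ ≤ 2 * (k : ℝ) ^ (1 / 4 : ℝ) := by
            refine mul_le_mul_of_nonneg_right ?_ (by positivity)
            calc (2:ℝ) ^ (1 / 4 : ℝ) ≤ (2:ℝ) ^ (1:ℝ) := Real.rpow_le_rpow_of_exponent_le (by norm_num) (by norm_num)
              _ = 2 := Real.rpow_one _
      have h8 : Real.log (1 + k) ≤ 8 * (k : ℝ) ^ (1 / 4 : ℝ) := by
        rw [div_eq_mul_inv] at h6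
        norm_num at h6 h7 ⊢
        linarith
      have h9 : 3 * Real.log T ≤ 3 * Real.log T * (k : ℝ) ^ (1 / 4 : ℝ) := by nlinarith
      have h10 : 8 * (k : ℝ) ^ (1 / 4 : ℝ) ≤ 8 * Real.log T * (k : ℝ) ^ (1 / 4 : ℝ) := by nlinarith
      push_cast at h5
      linarith
    have h4 : (k : ℝ) ^ (1 / 4 : ℝ) / (k : ℝ) ^ 2 ≤ 2 / √D * (k : ℝ) ^ (-(5 / 4) : ℝ) := by
      have h5 : (k : ℝ) ^ (1 / 4 : ℝ) / (k : ℝ) ^ 2 = (k : ℝ) ^ (-(1 / 2) : ℝ) * (k : ℝ) ^ (-(5 / 4) : ℝ) := by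
        rw [← Real.rpow_add hk00, ← Real.rpow_natCast, ← Real.rpow_sub hk00]
        congr 1
        norm_num
      rw [h5]
      refine mul_le_mul_of_nonneg_right ?_ (by positivity)
      rw [Real.rpow_neg hk00.le, ← Real.sqrt_eq_rpow, ← one_div, div_le_div_iff₀ (Real.sqrt_pos.2 hk00) hsD, one_mul]
      rw [show (2:ℝ) * √(k:ℝ) = √(4 * k) by
        rw [Real.sqrt_mul (by norm_num), show (4:ℝ) = 2 ^ 2 by norm_num, Real.sqrt_sq (by norm_num)]]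
      exact Real.sqrt_le_sqrt (by linarith)
    calc _ ≤ (∑ ρ ∈ Z.filter (fun ρ : ZS => κ ρ = k), mx ρ) / (k : ℝ) ^ 2 := h1
      _ ≤ C * (11 * Real.log T * (k : ℝ) ^ (1 / 4 : ℝ)) / (k : ℝ) ^ 2 := by
        refine div_le_div_of_nonneg_right (h2.trans ?_) (by positivity)
        exact mul_le_mul_of_nonneg_left h3 hC.le
      _ = 11 * C * Real.log T * ((k : ℝ) ^ (1 / 4 : ℝ) / (k : ℝ) ^ 2) := by ring
      _ ≤ 11 * C * Real.log T * (2 / √D * (k : ℝ) ^ (-(5 / 4) : ℝ)) := mul_le_mul_of_nonneg_left h4 (by positivity)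
      _ = _ := by ring
  refine (Finset.sum_le_sum hterm).trans ?_
  rw [← Finset.mul_sum]
  have h1 : ∑ k ∈ Z.image κ, (k : ℝ) ^ (-(5 / 4) : ℝ) ≤ S := hS.sum_le_tsum _ fun k _ => by positivity
  calc _ ≤ 22 * C * Real.log T / √D * (S + 1) := mul_le_mul_of_nonneg_left (by linarith) (by positivity)
    _ = _ := by ring

end Pool.Agent.Helper90.NS
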