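import Pool.Agent.Helper24.UG.Ker

/-!
# NS: the tail of the kernel, by parts
-/

set_option autoImplicit false
open MeasureTheory Set Filter Topology
open Pool.Agent.Helper54.LG (qk)

namespace Pool.Agent.Helper90.NS

/-- The kernel in closed form. -/
noncomputable def kf (b : ℝ) : ℝ := 4 * (b - Real.sin b) / b ^ 3

/-- Its derivative. -/
noncomputable def kd (b : ℝ) : ℝ := 4 * (1 - Real.cos b) / b ^ 3 - 12 * (b - Real.sin b) / b ^ 4

lemma qk_eq {b : ℝ} (hb : b ≠ 0) : qk 0 b = kf b := by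
  have h := Pool.Agent.Helper24.UG.qk_closed b
  unfold kf
  rw [eq_div_iff (pow_ne_zero 3 hb)]
  linarith

lemma kf_deriv {b : ℝ} (hb : 0 < b) : HasDerivAt kf (kd b) b := by
  have h1 : HasDerivAt (fun b : ℝ => 4 * (b - Real.sin b)) (4 * (1 - Real.cos b)) b :=
    ((hasDerivAt_id b).sub (Real.hasDerivAt_sin b)).const_mul 4
  have h2 : HasDerivAt (fun b : ℝ => b ^ 3) (3 * b ^ 2) b := by
    simpa using hasDerivAt_pow 3 b
  have h3 : HasDerivAt (fun b : ℝ => 4 * (b - Real.sin b) / b ^ 3)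
      ((4 * (1 - Real.cos b) * b ^ 3 - 4 * (b - Real.sin b) * (3 * b ^ 2)) / (b ^ 3) ^ 2) b :=
    h1.div h2 (pow_ne_zero 3 hb.ne')
  have e : kd b = (4 * (1 - Real.cos b) * b ^ 3 - 4 * (b - Real.sin b) * (3 * b ^ 2)) / (b ^ 3) ^ 2 := by
    unfold kd
    field_simp
    ring
  rw [e]
  exact h3

lemma sub_sin_bd {b : ℝ} (hb : 0 < b) : 0 ≤ b - Real.sin b ∧ b - Real.sin b ≤ 2 * b := by
  have h1 : |Real.sin b| ≤ b := (Real.abs_sin_le_abs).trans_eq (abs_of_pos hb)
  rw [abs_le] at h1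
  constructor <;> linarith [h1.1, h1.2]

lemma kf_nonneg {b : ℝ} (hb : 0 < b) : 0 ≤ kf b := by
  have h := (sub_sin_bd hb).1
  unfold kf
  positivity

lemma kf_bound {b : ℝ} (hb : 0 < b) : kf b ≤ 8 / b ^ 2 := by
  have h := (sub_sin_bd hb).2
  unfold kf
  rw [div_le_div_iff₀ (by positivity) (by positivity)]
  have h2 : 0 < b ^ 2 := by positivity
  nlinarith

lemma kd_bound {b : ℝ} (hb : 0 < b) : |kd b| ≤ 32 / b ^ 3 := by
  obtain ⟨h1, h2⟩ := sub_sin_bd hb
  have h3 : 0 ≤ 1 - Real.cos b := by linarith [Real.cos_le_one b]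
  have h4 : 1 - Real.cos b ≤ 2 := by linarith [Real.neg_one_le_cos b]
  unfold kd
  have h5 : |4 * (1 - Real.cos b) / b ^ 3| ≤ 8 / b ^ 3 := by
    rw [abs_of_nonneg (by positivity)]
    gcongr
    linarith
  have h6 : |12 * (b - Real.sin b) / b ^ 4| ≤ 24 / b ^ 3 := by
    rw [abs_of_nonneg (by positivity), div_le_div_iff₀ (by positivity) (by positivity)]
    have h7 : 0 < b ^ 3 := by positivity
    nlinarith
  calc _ ≤ |4 * (1 - Real.cos b) / b ^ 3| + |12 * (b - Real.sin b) / b ^ 4| := abs_sub _ _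
    _ ≤ 8 / b ^ 3 + 24 / b ^ 3 := add_le_add h5 h6
    _ = 32 / b ^ 3 := by ring

/-- One point. -/
lemma one_int {L U x m : ℝ} (hx : L < x) (hxU : x ≤ U) {f g : ℝ → ℝ} (hf : ∀ y ∈ Icc L U, HasDerivAt f (g y) y)
    (hg : ContinuousOn g (Icc L U)) :
    IntervalIntegrable (fun y => g y * (if x ≤ y then m else 0)) volume L U ∧
      ∫ y in L..U, g y * (if x ≤ y then m else 0) = m * (f U - f x) := by
  have hLU : L ≤ U := hx.le.trans hxU
  have hgx : IntervalIntegrable g volume x U := by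
    apply ContinuousOn.intervalIntegrable
    rw [uIcc_of_le hxU]
    exact hg.mono (Icc_subset_Icc hx.le le_rfl)
  have e1 : ∀ y ∈ Ioo L x, g y * (if x ≤ y then m else 0) = 0 := by
    intro y hy
    rw [if_neg (not_le.2 hy.2), mul_zero]
  have e2 : ∀ y ∈ Icc x U, g y * (if x ≤ y then m else 0) = g y * m := by
    intro y hy
    rw [if_pos hy.1]
  have i1 : IntervalIntegrable (fun y => g y * (if x ≤ y then m else 0)) volume L x := by
    rw [intervalIntegrable_iff_integrableOn_Ioo_of_le hx.le]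
    exact (integrableOn_congr_fun (g := fun _ => (0:ℝ)) e1 measurableSet_Ioo).2 integrableOn_zero
  have i2 : IntervalIntegrable (fun y => g y * (if x ≤ y then m else 0)) volume x U := by
    rw [intervalIntegrable_iff_integrableOn_Icc_of_le hxU]
    refine (integrableOn_congr_fun e2 measurableSet_Icc).2 ?_
    rw [← intervalIntegrable_iff_integrableOn_Icc_of_le hxU]
    exact hgx.mul_const m
  refine ⟨i1.trans i2, ?_⟩
  rw [← intervalIntegral.integral_add_adjacent_intervals i1 i2]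
  have v1 : ∫ y in L..x, g y * (if x ≤ y then m else 0) = 0 := by
    rw [intervalIntegral.integral_of_le hx.le, integral_Ioc_eq_integral_Ioo, setIntegral_congr_fun measurableSet_Ioo e1]
    simp
  have v2 : ∫ y in x..U, g y * (if x ≤ y then m else 0) = (f U - f x) * m := by
    rw [intervalIntegral.integral_congr (g := fun y => g y * m) (by
      intro y hy
      rw [uIcc_of_le hxU] at hy
      exact e2 y hy), intervalIntegral.integral_mul_const, intervalIntegral.integral_eq_sub_of_hasDerivAt]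
    · intro y hy
      rw [uIcc_of_le hxU] at hy
      exact hf y ⟨hx.le.trans hy.1, hy.2⟩
    · exact hgx
  rw [v1, v2]
  ring

/-- Partial summation. -/
lemma sum_int {ι : Type*} (F : Finset ι) (m x : ι → ℝ) {L U : ℝ} (hx : ∀ i ∈ F, L < x i ∧ x i ≤ U) {f g : ℝ → ℝ}
    (hf : ∀ y ∈ Icc L U, HasDerivAt f (g y) y) (hg : ContinuousOn g (Icc L U)) :
    IntervalIntegrable (fun y => g y * ∑ i ∈ F, (if x i ≤ y then m i else 0)) volume L U ∧
    ∑ i ∈ F, m i * f (x i) = f U * ∑ i ∈ F, m i - ∫ y in L..U, g y * ∑ i ∈ F, (if x i ≤ y then m i else 0) := by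
  have h := fun i (hi : i ∈ F) => one_int (m := m i) (hx i hi).1 (hx i hi).2 hf hg
  have e : (fun y => g y * ∑ i ∈ F, (if x i ≤ y then m i else 0)) =
      fun y => ∑ i ∈ F, g y * (if x i ≤ y then m i else 0) := by
    funext y
    rw [Finset.mul_sum]
  rw [e]
  constructor
  · have := IntervalIntegrable.sum F fun i hi => (h i hi).1
    rw [Finset.sum_fn] at this
    exact this
  · rw [intervalIntegral.integral_finsetSum fun i hi => (h i hi).1, Finset.sum_congr rfl fun i hi => (h i hi).2,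
      Finset.mul_sum, ← Finset.sum_sub_distrib]
    refine Finset.sum_congr rfl fun i _ => ?_
    ring

/-- Comparison of a sum with the integral. -/
lemma disc_sum {ι : Type*} (F : Finset ι) (m x : ι → ℝ) {L U : ℝ} (hLU : L ≤ U) (hx : ∀ i ∈ F, L < x i ∧ x i ≤ U)
    {f g E h : ℝ → ℝ} (hf : ∀ y ∈ Icc L U, HasDerivAt f (g y) y) (hg : ContinuousOn g (Icc L U))
    (hE : ∀ y ∈ Icc L U, |∑ i ∈ F, (if x i ≤ y then m i else 0) - (y - L)| ≤ E y)
    (hh : ∀ y ∈ Icc L U, |g y| * E y ≤ h y) (hhi : IntervalIntegrable h volume L U) :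
    |∑ i ∈ F, m i * f (x i) - ∫ y in L..U, f y| ≤ |f U| * E U + ∫ y in L..U, h y := by
  obtain ⟨h1, h2⟩ := sum_int F m x hx hf hg
  have hgi : IntervalIntegrable g volume L U := by
    apply ContinuousOn.intervalIntegrable
    rwa [uIcc_of_le hLU]
  have hfc : ContinuousOn f (Icc L U) := fun y hy => (hf y hy).continuousAt.continuousWithinAt
  have hfi : IntervalIntegrable f volume L U := by
    apply ContinuousOn.intervalIntegrable
    rwa [uIcc_of_le hLU]
  have hgy : IntervalIntegrable (fun y => g y * (y - L)) volume L U := by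
    apply ContinuousOn.intervalIntegrable
    rw [uIcc_of_le hLU]
    exact hg.mul (by fun_prop)
  have h3 : ∫ y in L..U, (f y + g y * (y - L)) = f U * (U - L) := by
    rw [intervalIntegral.integral_eq_sub_of_hasDerivAt (f := fun y => f y * (y - L))]
    · ring
    · intro y hy
      rw [uIcc_of_le hLU] at hy
      have h6 := (hf y hy).mul ((hasDerivAt_id y).sub_const L)
      have e : f y + g y * (y - L) = g y * (y - L) + f y * 1 := by ring
      rw [e]
      exact h6
    · exact hfi.add hgy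
  rw [intervalIntegral.integral_add hfi hgy] at h3
  have h4 : ∑ i ∈ F, m i = ∑ i ∈ F, (if x i ≤ U then m i else 0) :=
    Finset.sum_congr rfl fun i hi => by rw [if_pos (hx i hi).2]
  have h5 : ∑ i ∈ F, m i * f (x i) - ∫ y in L..U, f y =
      f U * (∑ i ∈ F, (if x i ≤ U then m i else 0) - (U - L)) -
        ∫ y in L..U, g y * (∑ i ∈ F, (if x i ≤ y then m i else 0) - (y - L)) := by
    have e : (fun y => g y * (∑ i ∈ F, (if x i ≤ y then m i else 0) - (y - L))) =
        fun y => g y * ∑ i ∈ F, (if x i ≤ y then m i else 0) - g y * (y - L) := by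
      funext y
      ring
    rw [e, intervalIntegral.integral_sub h1 hgy, h2, ← h4]
    linarith
  rw [h5]
  refine (abs_sub _ _).trans (add_le_add ?_ ?_)
  · rw [abs_mul]
    exact mul_le_mul_of_nonneg_left (hE U ⟨hLU, le_rfl⟩) (abs_nonneg _)
  · rw [← Real.norm_eq_abs]
    refine intervalIntegral.norm_integral_le_of_norm_le hLU ?_ hhi
    refine Eventually.of_forall fun y hy => ?_
    have hy' : y ∈ Icc L U := ⟨hy.1.le, hy.2⟩
    rw [norm_mul, Real.norm_eq_abs, Real.norm_eq_abs]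
    exact (mul_le_mul_of_nonneg_left (hE y hy') (abs_nonneg _)).trans (hh y hy')

/-- The comparison for the kernel. -/
theorem kf_sum {ι : Type*} (F : Finset ι) (m x : ι → ℝ) {L U M V W ε : ℝ} (hL : 1 ≤ L) (hLU : L ≤ U) (hM : 0 < M) (hV : 0 ≤ V)
    (hW : 0 ≤ W) (hε1 : ε ≤ 1) (hx : ∀ i ∈ F, L < x i ∧ x i ≤ U)
    (hE : ∀ y ∈ Icc L U, |∑ i ∈ F, (if x i ≤ y then m i else 0) - (y - L)| ≤ V * y ^ ε + W * y ^ (1:ℝ)) :
    |∑ i ∈ F, m i * kf (2 * Real.pi * x i / M) - ∫ y in L..U, kf (2 * Real.pi * y / M)| ≤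
      2 * V * M ^ 2 * L ^ (ε - 2) + 2 * W * M ^ 2 * L ^ ((1:ℝ) - 2) := by
  have hpi : 3 < Real.pi := Real.pi_gt_three
  have hpi0 := Real.pi_pos
  have hL0 : 0 < L := by linarith
  have hU0 : 0 < U := by linarith
  have hpos : ∀ y ∈ Icc L U, 0 < y := fun y hy => hL0.trans_le hy.1
  have hb : ∀ y ∈ Icc L U, 0 < 2 * Real.pi * y / M := fun y hy => by
    have := hpos y hy
    positivity
  have hd : ∀ y ∈ Icc L U, HasDerivAt (fun y => kf (2 * Real.pi * y / M)) (kd (2 * Real.pi * y / M) * (2 * Real.pi / M)) y := by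
    intro y hy
    have h1 := kf_deriv (hb y hy)
    have h2 : HasDerivAt (fun y : ℝ => 2 * Real.pi * y / M) (2 * Real.pi / M) y := by
      have := ((hasDerivAt_id y).const_mul (2 * Real.pi)).div_const M
      simpa using this
    exact h1.comp y h2
  have hcont : ContinuousOn (fun y => kd (2 * Real.pi * y / M) * (2 * Real.pi / M)) (Icc L U) := by
    unfold kd
    apply ContinuousOn.mul _ continuousOn_const
    apply ContinuousOn.sub
    · apply ContinuousOn.div
      · fun_prop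
      · fun_prop
      · intro y hy
        exact pow_ne_zero _ (hb y hy).ne'
    · apply ContinuousOn.div
      · fun_prop
      · fun_prop
      · intro y hy
        exact pow_ne_zero _ (hb y hy).ne'
  have hgb0 : ∀ y ∈ Icc L U, |kd (2 * Real.pi * y / M) * (2 * Real.pi / M)| ≤ M ^ 2 / y ^ 3 := by
    intro y hy
    have hy0 := hpos y hy
    have h1 := kd_bound (hb y hy)
    rw [abs_mul, abs_of_pos (show 0 < 2 * Real.pi / M by positivity)]
    calc _ ≤ 32 / (2 * Real.pi * y / M) ^ 3 * (2 * Real.pi / M) := mul_le_mul_of_nonneg_right h1 (by positivity)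
      _ = 8 / Real.pi ^ 2 * (M ^ 2 / y ^ 3) := by
        field_simp
        ring
      _ ≤ 1 * (M ^ 2 / y ^ 3) := by
        gcongr
        rw [div_le_one (by positivity)]
        nlinarith
      _ = _ := one_mul _
  have hgb1 : ∀ v a : ℝ, 0 ≤ v → ∀ y ∈ Icc L U, |kd (2 * Real.pi * y / M) * (2 * Real.pi / M)| * (v * y ^ a) ≤
      v * M ^ 2 * y ^ (a - 3) := by
    intro v a hv y hy
    have hy0 := hpos y hy
    have h3 : y ^ (a - 3) = y ^ a / y ^ 3 := by
      rw [Real.rpow_sub hy0]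
      congr 1
      norm_cast
    rw [h3]
    calc _ ≤ M ^ 2 / y ^ 3 * (v * y ^ a) := mul_le_mul_of_nonneg_right (hgb0 y hy) (by positivity)
      _ = _ := by ring
  have hgb : ∀ y ∈ Icc L U, |kd (2 * Real.pi * y / M) * (2 * Real.pi / M)| * (V * y ^ ε + W * y ^ (1:ℝ)) ≤
      V * M ^ 2 * y ^ (ε - 3) + W * M ^ 2 * y ^ ((1:ℝ) - 3) := by
    intro y hy
    rw [mul_add]
    exact add_le_add (hgb1 V ε hV y hy) (hgb1 W 1 hW y hy)
  have hint1 : ∀ v a : ℝ, IntervalIntegrable (fun y => v * M ^ 2 * y ^ (a - 3)) volume L U := by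
    intro v a
    apply IntervalIntegrable.const_mul
    apply intervalIntegral.intervalIntegrable_rpow
    right
    rw [uIcc_of_le hLU]
    intro h
    linarith [h.1]
  have hint : IntervalIntegrable (fun y => V * M ^ 2 * y ^ (ε - 3) + W * M ^ 2 * y ^ ((1:ℝ) - 3)) volume L U :=
    (hint1 V ε).add (hint1 W 1)
  have h := disc_sum F m x hLU hx hd hcont hE hgb hint
  refine h.trans ?_
  have h6 : ∀ v a : ℝ, 0 ≤ v → a ≤ 1 → ∫ y in L..U, v * M ^ 2 * y ^ (a - 3) ≤ v * M ^ 2 * L ^ (a - 2) := by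
    intro v a hv ha
    rw [intervalIntegral.integral_const_mul, integral_rpow (Or.inr ⟨by linarith, by
      rw [uIcc_of_le hLU]
      intro h
      linarith [h.1]⟩)]
    have e : a - 3 + 1 = a - 2 := by ring
    rw [e]
    have h7 : 0 < U ^ (a - 2) := Real.rpow_pos_of_pos hU0 _
    have h8 : 0 < L ^ (a - 2) := Real.rpow_pos_of_pos hL0 _
    have h9 : (U ^ (a - 2) - L ^ (a - 2)) / (a - 2) ≤ L ^ (a - 2) := by
      rw [div_le_iff_of_neg (by linarith)]
      nlinarith
    exact mul_le_mul_of_nonneg_left h9 (by positivity)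
  have h7 : ∀ v a : ℝ, 0 ≤ v → a ≤ 1 → |kf (2 * Real.pi * U / M)| * (v * U ^ a) ≤ v * M ^ 2 * L ^ (a - 2) := by
    intro v a hv ha
    have hbU := hb U ⟨hLU, le_rfl⟩
    rw [abs_of_nonneg (kf_nonneg hbU)]
    have h8 : kf (2 * Real.pi * U / M) ≤ M ^ 2 / U ^ 2 := by
      refine (kf_bound hbU).trans ?_
      have e : 8 / (2 * Real.pi * U / M) ^ 2 = 2 / Real.pi ^ 2 * (M ^ 2 / U ^ 2) := by
        field_simp
        ring
      rw [e]
      calc _ ≤ 1 * (M ^ 2 / U ^ 2) := by
            gcongr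
            rw [div_le_one (by positivity)]
            nlinarith
        _ = _ := one_mul _
    have h9 : U ^ (a - 2) = U ^ a / U ^ 2 := by
      rw [Real.rpow_sub hU0]
      congr 1
      norm_cast
    have h10 : U ^ (a - 2) ≤ L ^ (a - 2) := Real.rpow_le_rpow_of_nonpos hL0 hLU (by linarith)
    calc _ ≤ M ^ 2 / U ^ 2 * (v * U ^ a) := mul_le_mul_of_nonneg_right h8 (by positivity)
      _ = v * M ^ 2 * U ^ (a - 2) := by
        rw [h9]
        ring
      _ ≤ _ := mul_le_mul_of_nonneg_left h10 (by positivity)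
  rw [intervalIntegral.integral_add (hint1 V ε) (hint1 W 1), mul_add]
  have a1 := h6 V ε hV hε1
  have a2 := h6 W 1 hW le_rfl
  have a3 := h7 V ε hV hε1
  have a4 := h7 W 1 hW le_rfl
  exact (add_le_add (add_le_add a3 a4) (add_le_add a1 a2)).trans (le_of_eq (by ring))

end Pool.Agent.Helper90.NS
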