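import Pool.Agent.Helper90.NS.Ker
import Pool.Agent.Helper90.NS.Far
import Pool.Agent.Helper93.NR.Point

/-!
# NS: the tail of the sum over the zeros, at one point
-/

set_option autoImplicit false
open MeasureTheory Set Filter Topology
open Pool.Agent.Helper57.Zeta Pool.Agent.Helper57.LH Pool.Agent.Helper57.ED
open Pool.Agent.Helper54.LG (qk qk_cont qk_zero_nonneg qk_neg_right za zb)
open Pool.Agent.Helper93.UG (zc sp)
open Pool.Agent.Helper56.UG (zc_mono zc_union zc_eq fin_of)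
open Pool.Agent.Helper24.UG (zc_fin)
open Pool.Agent.Helper93.NR (zc_union_le KK KK_abs KK_le KK_mass KK_cont KK_nonneg)

namespace Pool.Agent.Helper90.NS

/-- The points between `L` and `y`. -/
def Tg (ξ : ℝ → ℝ) (L y : ℝ) : Set ℝ := {g | L < ξ g ∧ ξ g ≤ y}

/-- The numbers of the points, from the numbers in longer sets. -/
lemma cnt_gen {A : ℝ → Set ℝ} {ξ : ℝ → ℝ} {a b L U V W ε : ℝ} (hL : 1 ≤ L) (hV : 0 ≤ V) (hW : 0 ≤ W) (hε : 0 ≤ ε)
    (hε1 : ε ≤ 1) (hA : ∀ x ∈ Icc L (U + 1), A x ⊆ Icc a b) (hT : ∀ y ∈ Icc L U, Tg ξ L y ⊆ Icc a b)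
    (h1 : ∀ y ∈ Icc L U, Tg ξ L y ∪ A L ⊆ A (y + 1)) (h2 : ∀ y ∈ Icc L U, Disjoint (Tg ξ L y) (A L))
    (h3 : ∀ y ∈ Icc L U, A y ⊆ A (L + 1) ∪ Tg ξ L y)
    (h : ∀ x ∈ Icc L (U + 1), |(zc (A x) : ℝ) - x| ≤ V * x ^ ε + W * x) :
    ∀ y ∈ Icc L U, |(zc (Tg ξ L y) : ℝ) - (y - L)| ≤ (1 + 4 * V) * y ^ ε + 4 * W * y ^ (1:ℝ) := by
  intro y hy
  have hy1 : 1 ≤ y := hL.trans hy.1
  have hy0 : 0 < y := by linarith
  have hLU : L ≤ U := hy.1.trans hy.2
  have hD : ∀ x : ℝ, 0 < x → x ≤ y + 1 → V * x ^ ε + W * x ≤ 2 * V * y ^ ε + 2 * W * y := by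
    intro x hx hxy
    have e1 : x ^ ε ≤ 2 * y ^ ε := by
      calc x ^ ε ≤ (2 * y) ^ ε := Real.rpow_le_rpow hx.le (by linarith) hε
        _ = 2 ^ ε * y ^ ε := Real.mul_rpow (by norm_num) hy0.le
        _ ≤ 2 * y ^ ε := by
          refine mul_le_mul_of_nonneg_right ?_ (by positivity)
          calc (2:ℝ) ^ ε ≤ (2:ℝ) ^ (1:ℝ) := Real.rpow_le_rpow_of_exponent_le (by norm_num) hε1
            _ = 2 := Real.rpow_one _
    have e2 : V * x ^ ε ≤ V * (2 * y ^ ε) := mul_le_mul_of_nonneg_left e1 hV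
    have e3 : W * x ≤ W * (2 * y) := mul_le_mul_of_nonneg_left (by linarith) hW
    linarith
  have mL : L ∈ Icc L (U + 1) := ⟨le_rfl, by linarith⟩
  have mL1 : L + 1 ∈ Icc L (U + 1) := ⟨by linarith, by linarith⟩
  have my : y ∈ Icc L (U + 1) := ⟨hy.1, by linarith [hy.2]⟩
  have my1 : y + 1 ∈ Icc L (U + 1) := ⟨by linarith [hy.1], by linarith [hy.2]⟩
  have aL := h L mL
  have aL1 := h (L + 1) mL1
  have ay := h y my
  have ay1 := h (y + 1) my1
  have dL := hD L (by linarith) (by linarith [hy.1])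
  have dL1 := hD (L + 1) (by linarith) (by linarith [hy.1])
  have dy := hD y hy0 (by linarith)
  have dy1 := hD (y + 1) (by linarith) le_rfl
  have hye : 1 ≤ y ^ ε := Real.one_le_rpow hy1 hε
  have u1 : zc (Tg ξ L y) + zc (A L) ≤ zc (A (y + 1)) := by
    rw [← zc_union (hT y hy) (hA L mL) (h2 y hy)]
    exact zc_mono (h1 y hy) (hA _ my1)
  have u2 : zc (A y) ≤ zc (A (L + 1)) + zc (Tg ξ L y) := by
    refine (zc_mono (h3 y hy) (union_subset (hA _ mL1) (hT y hy))).trans (zc_union_le (hA _ mL1) (hT y hy))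
  have u1' : (zc (Tg ξ L y) : ℝ) + zc (A L) ≤ zc (A (y + 1)) := by exact_mod_cast u1
  have u2' : (zc (A y) : ℝ) ≤ zc (A (L + 1)) + zc (Tg ξ L y) := by exact_mod_cast u2
  rw [Real.rpow_one]
  rw [abs_le] at aL aL1 ay ay1 ⊢
  constructor
  · linarith [aL1.2, ay.1]
  · linarith [aL.1, ay1.2]

/-- One side. -/
lemma side {A : ℝ → Set ℝ} {ξ : ℝ → ℝ} {a b L U M V W ε : ℝ} (hL : 1 ≤ L) (hLU : L ≤ U) (hM : 0 < M) (hV : 0 ≤ V)
    (hW : 0 ≤ W) (hε : 0 ≤ ε) (hε1 : ε ≤ 1) (hA : ∀ x ∈ Icc L (U + 1), A x ⊆ Icc a b) (hT : ∀ y ∈ Icc L U, Tg ξ L y ⊆ Icc a b)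
    (h1 : ∀ y ∈ Icc L U, Tg ξ L y ∪ A L ⊆ A (y + 1)) (h2 : ∀ y ∈ Icc L U, Disjoint (Tg ξ L y) (A L))
    (h3 : ∀ y ∈ Icc L U, A y ⊆ A (L + 1) ∪ Tg ξ L y)
    (h : ∀ x ∈ Icc L (U + 1), |(zc (A x) : ℝ) - x| ≤ V * x ^ ε + W * x) :
    ∃ F : Finset ZS, (∀ ρ : ZS, ρ ∈ F ↔ L < ξ (ρ : ℂ).im ∧ ξ (ρ : ℂ).im ≤ U) ∧
      |∑ ρ ∈ F, mx ρ * kf (2 * Real.pi * ξ (ρ : ℂ).im / M) - ∫ y in L..U, kf (2 * Real.pi * y / M)| ≤
        2 * (1 + 4 * V) * M ^ 2 * L ^ (ε - 2) + 2 * (4 * W) * M ^ 2 * L ^ ((1:ℝ) - 2) := by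
  classical
  obtain ⟨F, hF, -⟩ := zc_fin (hT U ⟨hLU, le_rfl⟩)
  refine ⟨F, hF, ?_⟩
  have hc := cnt_gen hL hV hW hε hε1 hA hT h1 h2 h3 h
  refine kf_sum F (fun ρ => mx ρ) (fun ρ => ξ (ρ : ℂ).im) hL hLU hM (by positivity) (by positivity) hε1
    (fun ρ hρ => (hF ρ).1 hρ) ?_
  intro y hy
  obtain ⟨G, hG, e⟩ := zc_fin (hT y hy)
  have e2 : ∑ ρ ∈ F, (if ξ (ρ : ℂ).im ≤ y then mx ρ else 0) = (zc (Tg ξ L y) : ℝ) := by
    rw [e, ← Finset.sum_filter]
    refine Finset.sum_congr ?_ fun _ _ => rfl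
    ext ρ
    rw [Finset.mem_filter, hF, hG]
    constructor
    · rintro ⟨⟨a1, a2⟩, a3⟩
      exact ⟨a1, a3⟩
    · rintro ⟨a1, a2⟩
      exact ⟨⟨a1, a2.trans hy.2⟩, a2⟩
  rw [e2]
  exact hc y hy

/-- Summability. -/
lemma summ {T M u : ℝ} (hT : 1 < T) (hM : 0 < M) : Summable fun ρ : ZS => mx ρ * KK M (((ρ : ℂ).im - u) / sp T) := by
  have hl : 0 < Real.log T := Real.log_pos hT
  have h := Pool.Agent.Helper24.UG.summable_q0 (X := Real.log T / M) (by positivity) u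
  refine h.congr fun ρ => ?_
  congr 1
  unfold Pool.Agent.Helper93.NR.KK zb sp
  rw [← qk_neg_right]
  congr 1
  have := Real.pi_pos
  field_simp
  ring

open Classical in
/-- The far zeros, for the kernel. -/
theorem far_ker : ∃ C : ℝ, 0 < C ∧ ∀ (T u U M : ℝ), 3 ≤ T → |u| ≤ 4 * T → 1 ≤ U * sp T → 0 < M →
    0 ≤ ∑' ρ : ZS, mx ρ * (if |(ρ : ℂ).im - u| ≤ U * sp T then 0 else KK M (((ρ : ℂ).im - u) / sp T)) ∧
    ∑' ρ : ZS, mx ρ * (if |(ρ : ℂ).im - u| ≤ U * sp T then 0 else KK M (((ρ : ℂ).im - u) / sp T)) ≤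
      C * M ^ 2 * sp T ^ 2 * Real.log T / √(U * sp T) := by
  obtain ⟨C, hC, H⟩ := far_sum
  refine ⟨C, hC, fun T u U M hT hu hU hM => ?_⟩
  have hl : 0 < Real.log T := Real.log_pos (by linarith)
  have hs : 0 < sp T := by
    unfold sp
    have := Real.pi_pos
    positivity
  have h0 : ∀ ρ : ZS, 0 ≤ mx ρ * (if |(ρ : ℂ).im - u| ≤ U * sp T then 0 else KK M (((ρ : ℂ).im - u) / sp T)) := by
    intro ρ
    refine mul_nonneg (mx_nonneg _) ?_
    split_ifs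
    · exact le_rfl
    · exact KK_nonneg _ _
  refine ⟨tsum_nonneg h0, Real.tsum_le_of_sum_le h0 fun Z => ?_⟩
  have h1 : ∑ ρ ∈ Z, mx ρ * (if |(ρ : ℂ).im - u| ≤ U * sp T then 0 else KK M (((ρ : ℂ).im - u) / sp T)) ≤
      ∑ ρ ∈ Z.filter (fun ρ : ZS => ¬ |(ρ : ℂ).im - u| ≤ U * sp T), M ^ 2 * sp T ^ 2 * (mx ρ / ((ρ : ℂ).im - u) ^ 2) := by
    rw [Finset.sum_filter]
    refine Finset.sum_le_sum fun ρ _ => ?_
    split_ifs with hc
    · simp
    · rw [not_le] at hc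
      have hd : 0 < |(ρ : ℂ).im - u| := by linarith
      have h2 : KK M (((ρ : ℂ).im - u) / sp T) ≤ M ^ 2 / (|(ρ : ℂ).im - u| / sp T) ^ 2 := by
        rw [← KK_abs, abs_div, abs_of_pos hs]
        exact KK_le hM (by positivity)
      rw [div_pow, sq_abs] at h2
      have hd2 : 0 < ((ρ : ℂ).im - u) ^ 2 := by
        rw [← sq_abs]
        positivity
      calc mx ρ * KK M (((ρ : ℂ).im - u) / sp T) ≤ mx ρ * (M ^ 2 / (((ρ : ℂ).im - u) ^ 2 / sp T ^ 2)) :=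
            mul_le_mul_of_nonneg_left h2 (mx_nonneg _)
        _ = _ := by
          field_simp
  refine h1.trans ?_
  rw [← Finset.mul_sum]
  have h2 := H T u (U * sp T) (Z.filter (fun ρ : ZS => ¬ |(ρ : ℂ).im - u| ≤ U * sp T)) hT hu hU (fun ρ hρ => by
    rw [Finset.mem_filter, not_le] at hρ
    exact hρ.2)
  calc _ ≤ M ^ 2 * sp T ^ 2 * (C * Real.log T / √(U * sp T)) := mul_le_mul_of_nonneg_left h2 (by positivity)
    _ = _ := by ring

lemma kf_int {M L U : ℝ} (hM : 0 < M) (hL : 0 < L) (hLU : L ≤ U) :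
    ∫ y in L..U, kf (2 * Real.pi * y / M) = ∫ y in L..U, KK M y := by
  refine intervalIntegral.integral_congr fun y hy => ?_
  rw [uIcc_of_le hLU] at hy
  have hy0 : 0 < y := hL.trans_le hy.1
  have hpi := Real.pi_pos
  unfold Pool.Agent.Helper93.NR.KK
  exact (qk_eq (by positivity)).symm

lemma fin_alg {a b f I J B R Q : ℝ} (h1 : |a - I| ≤ B) (h2 : |b - I| ≤ B) (h3 : 0 ≤ f) (h4 : f ≤ R) (h5 : 0 ≤ J) (h6 : J ≤ Q) :
    |(a + b) + f - 2 * (I + J)| ≤ 2 * B + R + 2 * Q := by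
  rw [abs_le] at h1 h2 ⊢
  constructor
  · linarith [h1.1, h2.1]
  · linarith [h1.2, h2.2]

open Classical in
/-- The tail at one point. -/
theorem pt_tail : ∃ C : ℝ, 0 < C ∧ ∀ (T u L U M V W ε : ℝ), 3 ≤ T → |u| ≤ 4 * T → 1 ≤ L → L ≤ U → 1 ≤ U * sp T → 0 < M →
    0 ≤ V → 0 ≤ W → 0 ≤ ε → ε ≤ 1 →
    (∀ x ∈ Icc L (U + 1), |(zc (Ico u (u + x * sp T)) : ℝ) - x| ≤ V * x ^ ε + W * x) →
    (∀ x ∈ Icc L (U + 1), |(zc (Ico (u - x * sp T) u) : ℝ) - x| ≤ V * x ^ ε + W * x) →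
    |∑' ρ : ZS, mx ρ * (if |(ρ : ℂ).im - u| ≤ L * sp T then 0 else KK M (((ρ : ℂ).im - u) / sp T)) -
      2 * ∫ x in Ioi L, KK M x| ≤
      2 * (2 * (1 + 4 * V) * M ^ 2 * L ^ (ε - 2) + 2 * (4 * W) * M ^ 2 * L ^ ((1:ℝ) - 2)) +
        C * M ^ 2 * sp T ^ 2 * Real.log T / √(U * sp T) + 2 * (M ^ 2 / U) := by
  obtain ⟨C, hC, H⟩ := far_ker
  refine ⟨C, hC, fun T u L U M V W ε hT hu hL hLU hU hM hV hW hε hε1 hr hl => ?_⟩
  have hlog : 0 < Real.log T := Real.log_pos (by linarith)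
  have hpi := Real.pi_pos
  have hs : 0 < sp T := by
    unfold sp
    positivity
  have hL0 : 0 < L := by linarith
  have hU0 : 0 < U := by linarith
  set s := sp T with hsd
  -- the right side
  have tR : ∀ y : ℝ, Tg (fun g => (g - u) / s) L y = Ioc (u + L * s) (u + y * s) := by
    intro y
    ext g
    simp only [Tg, Set.mem_ofPred_eq, Set.mem_Ioc]
    rw [lt_div_iff₀ hs, div_le_iff₀ hs]
    constructor
    · rintro ⟨h1, h2⟩
      constructor <;> linarith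
    · rintro ⟨h1, h2⟩
      constructor <;> linarith
  have tL : ∀ y : ℝ, Tg (fun g => (u - g) / s) L y = Ico (u - y * s) (u - L * s) := by
    intro y
    ext g
    simp only [Tg, Set.mem_ofPred_eq, Set.mem_Ico]
    rw [lt_div_iff₀ hs, div_le_iff₀ hs]
    constructor
    · rintro ⟨h1, h2⟩
      constructor <;> linarith
    · rintro ⟨h1, h2⟩
      constructor <;> linarith
  have ms : ∀ x y : ℝ, x ≤ y → x * s ≤ y * s := fun x y h => mul_le_mul_of_nonneg_right h hs.le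
  have msp : ∀ x : ℝ, 0 ≤ x → 0 ≤ x * s := fun x h => mul_nonneg h hs.le
  obtain ⟨Fr, hFr, er⟩ := side (A := fun x => Ico u (u + x * s)) (ξ := fun g => (g - u) / s) (a := u) (b := u + (U + 1) * s)
    (M := M) hL hLU hM hV hW hε hε1 (fun x hx g hg => ⟨hg.1, by linarith [hg.2, ms x (U + 1) hx.2]⟩)
    (fun y hy g hg => by
      rw [tR] at hg
      exact ⟨by linarith [hg.1, msp L hL0.le], by linarith [hg.2, ms y (U + 1) (by linarith [hy.2])]⟩)
    (fun y hy g hg => by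
      rw [tR] at hg
      rcases hg with hg | hg
      · exact ⟨by linarith [hg.1, msp L hL0.le], by linarith [hg.2, hs]⟩
      · exact ⟨hg.1, by linarith [hg.2, ms L (y + 1) (by linarith [hy.1])]⟩)
    (fun y hy => by
      rw [tR, Set.disjoint_left]
      intro g hg hg'
      exact absurd hg'.2 (not_lt.2 hg.1.le))
    (fun y hy g hg => by
      rw [tR]
      rcases lt_or_ge g (u + (L + 1) * s) with h | h
      · exact Or.inl ⟨hg.1, h⟩
      · exact Or.inr ⟨by linarith, hg.2.le⟩)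
    hr
  obtain ⟨Fl, hFl, el⟩ := side (A := fun x => Ico (u - x * s) u) (ξ := fun g => (u - g) / s) (a := u - (U + 1) * s) (b := u)
    (M := M) hL hLU hM hV hW hε hε1 (fun x hx g hg => ⟨by linarith [hg.1, ms x (U + 1) hx.2], hg.2.le⟩)
    (fun y hy g hg => by
      rw [tL] at hg
      exact ⟨by linarith [hg.1, ms y (U + 1) (by linarith [hy.2])], by linarith [hg.2, msp L hL0.le]⟩)
    (fun y hy g hg => by
      rw [tL] at hg
      rcases hg with hg | hg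
      · exact ⟨by linarith [hg.1, hs], by linarith [hg.2, msp L hL0.le]⟩
      · exact ⟨by linarith [hg.1, ms L (y + 1) (by linarith [hy.1])], hg.2⟩)
    (fun y hy => by
      rw [tL, Set.disjoint_left]
      intro g hg hg'
      exact absurd hg.2 (not_lt.2 hg'.1))
    (fun y hy g hg => by
      rw [tL]
      rcases lt_or_ge g (u - L * s) with h | h
      · exact Or.inr ⟨hg.1, h⟩
      · exact Or.inl ⟨by linarith, hg.2⟩)
    hl
  rw [kf_int hM hL0 hLU] at er el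
  -- the two finite sums
  set g : ZS → ℝ := fun ρ => mx ρ * KK M (((ρ : ℂ).im - u) / s) with hg
  have sr : ∑ ρ ∈ Fr, mx ρ * kf (2 * Real.pi * (((ρ : ℂ).im - u) / s) / M) = ∑ ρ ∈ Fr, g ρ := by
    refine Finset.sum_congr rfl fun ρ hρ => ?_
    have h1 : 0 < ((ρ : ℂ).im - u) / s := hL0.trans ((hFr ρ).1 hρ).1
    rw [hg]
    simp only
    congr 1
    unfold Pool.Agent.Helper93.NR.KK
    exact (qk_eq (by positivity)).symm
  have sl : ∑ ρ ∈ Fl, mx ρ * kf (2 * Real.pi * ((u - (ρ : ℂ).im) / s) / M) = ∑ ρ ∈ Fl, g ρ := by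
    refine Finset.sum_congr rfl fun ρ hρ => ?_
    have h1 : 0 < (u - (ρ : ℂ).im) / s := hL0.trans ((hFl ρ).1 hρ).1
    rw [hg]
    simp only
    congr 1
    rw [← KK_abs, show ((ρ : ℂ).im - u) / s = -((u - (ρ : ℂ).im) / s) by ring, abs_neg, KK_abs]
    unfold Pool.Agent.Helper93.NR.KK
    exact (qk_eq (by positivity)).symm
  rw [sr] at er
  rw [sl] at el
  have hdisj : Disjoint Fr Fl := by
    rw [Finset.disjoint_left]
    intro ρ h1 h2
    have h3 := ((hFr ρ).1 h1).1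
    have h4 := ((hFl ρ).1 h2).1
    have h5 : ((ρ : ℂ).im - u) / s = -((u - (ρ : ℂ).im) / s) := by ring
    linarith
  have hmem : ∀ ρ : ZS, ρ ∈ Fr ∪ Fl ↔ L * s < |(ρ : ℂ).im - u| ∧ |(ρ : ℂ).im - u| ≤ U * s := by
    intro ρ
    rw [Finset.mem_union, hFr, hFl]
    rw [lt_div_iff₀ hs, div_le_iff₀ hs, lt_div_iff₀ hs, div_le_iff₀ hs]
    have hLs := msp L hL0.le
    have hUs := msp U hU0.le
    constructor
    · rintro (⟨h1, h2⟩ | ⟨h1, h2⟩)
      · rw [abs_of_pos (by linarith)]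
        exact ⟨h1, h2⟩
      · rw [abs_of_neg (by linarith)]
        constructor <;> linarith
    · rintro ⟨h1, h2⟩
      rcases le_total 0 ((ρ : ℂ).im - u) with h | h
      · rw [abs_of_nonneg h] at h1 h2
        exact Or.inl ⟨h1, h2⟩
      · rw [abs_of_nonpos h] at h1 h2
        exact Or.inr ⟨by linarith, by linarith⟩
  have hgs : Summable g := summ (by linarith) hM
  -- splitting
  have hsplit : ∑' ρ : ZS, mx ρ * (if |(ρ : ℂ).im - u| ≤ L * s then 0 else KK M (((ρ : ℂ).im - u) / s)) =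
      (∑ ρ ∈ Fr, g ρ + ∑ ρ ∈ Fl, g ρ) +
        ∑' ρ : ZS, mx ρ * (if |(ρ : ℂ).im - u| ≤ U * s then 0 else KK M (((ρ : ℂ).im - u) / s)) := by
    rw [← Finset.sum_union hdisj]
    have e1 : ∀ ρ : ZS, mx ρ * (if |(ρ : ℂ).im - u| ≤ L * s then 0 else KK M (((ρ : ℂ).im - u) / s)) =
        (if ρ ∈ Fr ∪ Fl then g ρ else 0) +
          mx ρ * (if |(ρ : ℂ).im - u| ≤ U * s then 0 else KK M (((ρ : ℂ).im - u) / s)) := by
      intro ρ
      by_cases h1 : |(ρ : ℂ).im - u| ≤ L * s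
      · have h2 : |(ρ : ℂ).im - u| ≤ U * s := h1.trans (ms L U hLU)
        have h3 : ρ ∉ Fr ∪ Fl := fun h => absurd ((hmem ρ).1 h).1 (not_lt.2 h1)
        rw [if_pos h1, if_pos h2, if_neg h3]
        ring
      · by_cases h2 : |(ρ : ℂ).im - u| ≤ U * s
        · have h3 : ρ ∈ Fr ∪ Fl := (hmem ρ).2 ⟨not_le.1 h1, h2⟩
          rw [if_neg h1, if_pos h2, if_pos h3]
          ring
        · have h3 : ρ ∉ Fr ∪ Fl := fun h => h2 ((hmem ρ).1 h).2
          rw [if_neg h1, if_neg h2, if_neg h3]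
          ring
    simp_rw [e1]
    rw [Summable.tsum_add]
    · congr 1
      rw [tsum_eq_sum (s := Fr ∪ Fl)]
      · exact Finset.sum_congr rfl fun ρ hρ => if_pos hρ
      · intro ρ hρ
        exact if_neg hρ
    · refine summable_of_ne_finset_zero (s := Fr ∪ Fl) fun ρ hρ => if_neg hρ
    · refine Summable.of_nonneg_of_le (fun ρ => ?_) (fun ρ => ?_) hgs
      · refine mul_nonneg (mx_nonneg _) ?_
        split_ifs
        · exact le_rfl
        · exact KK_nonneg _ _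
      · rw [hg]
        simp only
        refine mul_le_mul_of_nonneg_left ?_ (mx_nonneg _)
        split_ifs
        · exact KK_nonneg _ _
        · exact le_rfl
  obtain ⟨f1, f2⟩ := H T u U M hT hu hU hM
  rw [← hsd] at f1 f2
  rw [hsplit]
  obtain ⟨-, m2, m3⟩ := KK_mass hM
  have i1 : IntegrableOn (KK M) (Ioi L) := m2.mono_set (Ioi_subset_Ioi hL0.le)
  have i2 : IntegrableOn (KK M) (Ioi U) := m2.mono_set (Ioi_subset_Ioi hU0.le)
  have e3 : ∫ x in Ioi L, KK M x = (∫ y in L..U, KK M y) + ∫ x in Ioi U, KK M x := by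
    rw [intervalIntegral.integral_interval_add_Ioi i1 i2]
  have e4 := m3 U hU0
  have e5 : 0 ≤ ∫ x in Ioi U, KK M x := setIntegral_nonneg measurableSet_Ioi fun x _ => KK_nonneg M x
  rw [e3]
  exact fin_alg er el f1 f2 e5 e4

end Pool.Agent.Helper90.NS
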